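import Pool.Agent.N641.VB.Final8

set_option autoImplicit false

/-!
# Vaught's conjecture for structures bi-interpretable with Boolean algebras with a measure

Consider Boolean algebras with a finitely additive measure with values in a finite commutative
monoid `M`, as structures for the order and a unary predicate for each value of the measure.

(1) Let `T` be a first-order theory in a countable language such that every model of `T` with
universe `ℕ` is elementarily equivalent to a structure that is bi-interpretable, with parameters,
with such an algebra. Then Vaught's conjecture, perfect-set form, holds for `T`. More precisely,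
either `T` has perfectly many countable models, or any two elementarily equivalent models of `T` with
universe `ℕ` are isomorphic (so the completions of `T` with infinite models are countably
categorical) and there are countably many models up to isomorphism.

(2) In particular this holds for every first-order theory of Boolean algebras with a finitely
additive measure with values in a finite commutative monoid,

(3) for every first-order theory of Boolean algebras with finitely many distinguished ideals,

(4) for every first-order theory of relatively complemented distributive lattices,

(5) for every first-order theory of commutative rings such that each model satisfies `x ^ m = x` for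
some `m ≥ 2`,

(6) for every first-order theory of Boolean algebras with an automorphism of finite order, and

(7) for every first-order theory of Boolean algebras with an action of a finite abelian group.

The proof: elements of the algebras have full types (sequences of Ehrenfeucht-Fraisse types), which
form a compact topological monoid with refinement. If an algebra has infinitely, but countably many
types of parts of some element, then this monoid has an idempotent whose divisors accumulate at it
in a strong sense; one constructs elementarily equivalent algebras in which the ideal of the
elements with finitely many types of parts has an arbitrary countable Boolean algebra as quotient,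
and codes uncountably many sets of numbers in the ranks of this quotient. By Silver's theorem
there are perfectly many models. Otherwise all algebras have finitely many types of parts, so all
structures have finitely many types of tuples and are countably categorical.
-/

namespace Pool.Agent.Results.MP_5df2c5_lc.BooleanMeasures

open FirstOrder FirstOrder.Language Pool.Agent.N641.VB Pool.Agent.N641.VB.Final

theorem result :
    (∀ (L : FirstOrder.Language.{0, 0}), Countable L.Symbols → ∀ (T : L.Theory),
      (∀ S : L.Structure ℕ, @Theory.Model L ℕ S T → ∃ S' : L.Structure ℕ,
        (∀ χ : L.Sentence, @Sentence.Realize L ℕ S χ ↔ @Sentence.Realize L ℕ S' χ) ∧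
        ∃ (M : Type) (_ : AddCommMonoid M) (_ : Finite M) (bo : BooleanAlgebra ℕ) (mu : ℕ → M),
          FinitelyAdditive bo mu ∧ BiInterpretable (algebraStructure bo mu) S') →
      StrongDichotomy L T) ∧
    (∀ (M : Type) [AddCommMonoid M] [Finite M] (T : (AlgebraLanguage M).Theory),
      (∀ S : (AlgebraLanguage M).Structure ℕ, @Theory.Model (AlgebraLanguage M) ℕ S T →
        ∃ (bo : BooleanAlgebra ℕ) (mu : ℕ → M), FinitelyAdditive bo mu ∧
          S = algebraStructure bo mu) →
      StrongDichotomy (AlgebraLanguage M) T) ∧
    (∀ (r : ℕ) (T : (LI r).Theory),
      (∀ S : (LI r).Structure ℕ, @Theory.Model (LI r) ℕ S T →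
        ∃ (bo : BooleanAlgebra ℕ) (I : Fin r → Set ℕ), (∀ i, IsId bo (I i)) ∧ S = strI bo I) →
      StrongDichotomy (LI r) T) ∧
    (∀ T : LO.Theory,
      (∀ S : LO.Structure ℕ, @Theory.Model LO ℕ S T → ∃ D : DistribLattice ℕ,
        (∀ a b c : ℕ, D.le a b → D.le b c → ∃ d, D.inf b d = a ∧ D.sup b d = c) ∧
        S = strO D.le) →
      StrongDichotomy LO T) ∧
    (∀ T : LR.Theory,
      (∀ S : LR.Structure ℕ, @Theory.Model LR ℕ S T → ∃ (m : ℕ) (R : CommRing ℕ),
        2 ≤ m ∧ (∀ x, R.npow m x = x) ∧ S = strR R) →
      StrongDichotomy LR T) ∧
    (∀ T : LA.Theory,
      (∀ S : LA.Structure ℕ, @Theory.Model LA ℕ S T → ∃ (n : ℕ) (bo : BooleanAlgebra ℕ)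
        (s : ℕ → ℕ), 0 < n ∧ (∀ a b, bo.le a b ↔ bo.le (s a) (s b)) ∧ (∀ a, s^[n] a = a) ∧
        S = strA bo.le s) →
      StrongDichotomy LA T) ∧
    (∀ (G : Type) [CommGroup G] [Finite G] (T : (LG G).Theory),
      (∀ S : (LG G).Structure ℕ, @Theory.Model (LG G) ℕ S T → ∃ (bo : BooleanAlgebra ℕ)
        (s : G → ℕ → ℕ), (∀ g a b, bo.le a b ↔ bo.le (s g a) (s g b)) ∧ (∀ a, s 1 a = a) ∧
        (∀ g h a, s (g * h) a = s g (s h a)) ∧ S = strG bo.le s) →
      StrongDichotomy (LG G) T) := main7 agb

end Pool.Agent.Results.MP_5df2c5_lc.BooleanMeasures
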