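import Pool.Agent.N649.KA.FO

set_option autoImplicit false

/-!
# Vaught's conjecture for theories of chains of named elements

Let `T` be a first-order theory in an arbitrary countable language. Say that an element `u` of a
model names `v` (over parameters `p`, by the set `Φ` of formulas) if `v` is the only element with
`φ(p, u, v)`, for some formula `φ` in `Φ`, and that `v` is reachable from `u` if it is obtained by
finitely many such steps. If `Φ` consists of all formulas, the elements reachable from `u` are those
of the definable closure of `p` and `u`.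

(1) Vaught's conjecture, perfect-set form, holds for `T` if each of its models with universe `ℕ` has
parameters `p` such that the elements reachable from one element form a chain (of two elements
reachable from `u`, one is reachable from the other) and each tuple in a relation, and each
argument tuple of a function together with its value, is reachable from one element.

(2) In particular this holds if there are only unary functions (and constants), if in each model
with universe `ℕ` the substructures generated by one element are chains (of two of its elements, one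
generates the other), and if each tuple in a relation lies in a substructure generated by one
element. There is no condition on unary predicates.

(3) In particular Vaught's conjecture holds for all first-order theories of acts of a countable
monoid `S` whose principal left ideals form a chain, in any countable language that extends the
language of acts by relations whose tuples lie in cyclic subacts (for example by unary predicates).
By a theorem of Mustafin these are the monoids for which the theories of all acts are stable.

The proof: if `T` does not have perfectly many models, then only countably many types of slices (sets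
of the elements reachable from a point) occur. They form a countable category of monomorphisms with
linearly ordered slices; its maps are represented by elements of a free group, and the models are
coded by semilinear orders with a free action of this group, for which the conjecture is known.
-/

namespace Pool.Agent.Results.MP_5df2c5_lc.ChainsOfNamedElements

open FirstOrder

/-- Vaught's conjecture, perfect-set form, for the theory `T` in the language `L` (the body of the
frozen statement): the models with universe `ℕ` fall into countably many isomorphism classes, or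
some continuous family of models, indexed by the Cantor space, consists of pairwise
non-isomorphic models. -/
def Dichotomy (L : FirstOrder.Language.{0, 0}) (T : L.Theory) : Prop :=
  (∃ g : ℕ → L.Structure ℕ, ∀ S : L.Structure ℕ,
      @FirstOrder.Language.Theory.Model L ℕ S T →
        ∃ n : ℕ, Nonempty (@FirstOrder.Language.Equiv L ℕ ℕ S (g n))) ∨
  (∃ f : (ℕ → Bool) → L.Structure ℕ,
      (∀ x : ℕ → Bool, @FirstOrder.Language.Theory.Model L ℕ (f x) T) ∧
      (∀ x y : ℕ → Bool,
          Nonempty (@FirstOrder.Language.Equiv L ℕ ℕ (f x) (f y)) → x = y) ∧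
      (∀ (n : ℕ) (R : L.Relations n) (a : Fin n → ℕ),
          IsClopen {x : ℕ → Bool | @FirstOrder.Language.Structure.RelMap L ℕ (f x) n R a}) ∧
      (∀ (n : ℕ) (F : L.Functions n) (a : Fin n → ℕ) (b : ℕ),
          IsOpen {x : ℕ → Bool | @FirstOrder.Language.Structure.funMap L ℕ (f x) n F a = b}))

/-- The formula `φ` holds in the structure `M` of the parameters `p` and of `u`, `v`. -/
def Holds {L : FirstOrder.Language.{0, 0}} (M : L.Structure ℕ) {k : ℕ} (p : Fin k → ℕ)
    (φ : L.Formula (Fin k ⊕ Fin 2)) (u v : ℕ) : Prop :=
  @FirstOrder.Language.Formula.Realize L ℕ M _ φ (Sum.elim p ![u, v])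

/-- `u` names `v`: for some formula `φ` of `Φ`, `v` is the only element with `φ(p, u, v)`. -/
def Names {L : FirstOrder.Language.{0, 0}} (M : L.Structure ℕ) {k : ℕ} (p : Fin k → ℕ)
    (Φ : Set (L.Formula (Fin k ⊕ Fin 2))) (u v : ℕ) : Prop :=
  ∃ φ ∈ Φ, Holds M p φ u v ∧ ∀ w, Holds M p φ u w → w = v

/-- The structure `M` consists of chains, with respect to a relation of reachability: of two elements
reachable from `u`, one is reachable from the other; each tuple in a relation, and each argument
tuple of a function together with its value, is reachable from one element. -/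
structure ConsistsOfChains {L : FirstOrder.Language.{0, 0}} (M : L.Structure ℕ)
    (reach : ℕ → ℕ → Prop) : Prop where
  chain : ∀ u v w, reach u v → reach u w → reach v w ∨ reach w v
  rel : ∀ (n : ℕ) (R : L.Relations n) (v : Fin n → ℕ),
    @FirstOrder.Language.Structure.RelMap L ℕ M n R v → ∃ u, ∀ i, reach u (v i)
  fun_ : ∀ (n : ℕ) (F : L.Functions n) (v : Fin n → ℕ), ∃ u,
    reach u (@FirstOrder.Language.Structure.funMap L ℕ M n F v) ∧ ∀ i, reach u (v i)

/-- One step by a unary function of the structure `M`. -/
def UnaryStep {L : FirstOrder.Language.{0, 0}} (M : L.Structure ℕ) (u v : ℕ) : Prop :=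
  ∃ F : L.Functions 1, @FirstOrder.Language.Structure.funMap L ℕ M 1 F ![u] = v

/-- Vaught's conjecture, perfect-set form, for first-order theories of structures that consist of
chains of named elements. -/
theorem result :
    -- (1) chains of named elements
    (∀ (L : FirstOrder.Language.{0, 0}), Countable L.Symbols →
      ∀ (T : L.Theory) (Φ : ℕ → (m : ℕ) → Set (L.Formula (Fin m ⊕ Fin 2))),
        (∀ M : L.Structure ℕ, @FirstOrder.Language.Theory.Model L ℕ M T →
          ∃ (k m : ℕ) (p : Fin m → ℕ),
            ConsistsOfChains M (Relation.ReflTransGen (Names M p (Φ k m)))) →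
        Dichotomy L T) ∧
    -- (2) unary functions, and relations with tuples in one-generated substructures
    (∀ (L : FirstOrder.Language.{0, 0}), Countable L.Symbols →
      (∀ n, 2 ≤ n → IsEmpty (L.Functions n)) →
      ∀ T : L.Theory,
        (∀ M : L.Structure ℕ, @FirstOrder.Language.Theory.Model L ℕ M T →
          (∀ u v w, Relation.ReflTransGen (UnaryStep M) u v →
            Relation.ReflTransGen (UnaryStep M) u w →
            Relation.ReflTransGen (UnaryStep M) v w ∨ Relation.ReflTransGen (UnaryStep M) w v) ∧
          ∀ (n : ℕ) (R : L.Relations n) (v : Fin n → ℕ), 2 ≤ n →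
            @FirstOrder.Language.Structure.RelMap L ℕ M n R v →
            ∃ u, ∀ i, Relation.ReflTransGen (UnaryStep M) u (v i)) →
        Dichotomy L T) ∧
    -- (3) acts of monoids whose principal left ideals form a chain
    (∀ (S : Type) [Monoid S], (∀ a b : S, (∃ c, c * b = a) ∨ ∃ c, c * a = b) →
      ∀ (L : FirstOrder.Language.{0, 0}), Countable L.Symbols →
      (∀ n, 2 ≤ n → IsEmpty (L.Functions n)) →
      ∀ (f : S → L.Functions 1), Function.Surjective f →
      ∀ T : L.Theory,
        (∀ M : L.Structure ℕ, @FirstOrder.Language.Theory.Model L ℕ M T →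
          (∀ u : ℕ, @FirstOrder.Language.Structure.funMap L ℕ M 1 (f 1) ![u] = u) ∧
          (∀ (s t : S) (u : ℕ), @FirstOrder.Language.Structure.funMap L ℕ M 1 (f (s * t)) ![u] =
            @FirstOrder.Language.Structure.funMap L ℕ M 1 (f s)
              ![@FirstOrder.Language.Structure.funMap L ℕ M 1 (f t) ![u] ]) ∧
          ∀ (n : ℕ) (R : L.Relations n) (v : Fin n → ℕ), 2 ≤ n →
            @FirstOrder.Language.Structure.RelMap L ℕ M n R v →
            ∃ (u : ℕ) (s : Fin n → S),
              ∀ i, @FirstOrder.Language.Structure.funMap L ℕ M 1 (f (s i)) ![u] = v i) →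
        Dichotomy L T) := by
  have h1 : ∀ (L : FirstOrder.Language.{0, 0}), Countable L.Symbols →
      ∀ (T : L.Theory) (Φ : ℕ → (m : ℕ) → Set (L.Formula (Fin m ⊕ Fin 2))),
        (∀ M : L.Structure ℕ, @FirstOrder.Language.Theory.Model L ℕ M T →
          ∃ (k m : ℕ) (p : Fin m → ℕ),
            ConsistsOfChains M (Relation.ReflTransGen (Names M p (Φ k m)))) →
        Dichotomy L T := by
    intro L hL T Φ hT
    refine N649.KA.FO.fo_main hL T Φ fun M hM => ?_
    obtain ⟨k, m, p, h1, h2, h3⟩ := hT M hM
    exact ⟨k, m, p, h1, h2, h3⟩
  have h2 : ∀ (L : FirstOrder.Language.{0, 0}), Countable L.Symbols →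
      (∀ n, 2 ≤ n → IsEmpty (L.Functions n)) →
      ∀ T : L.Theory,
        (∀ M : L.Structure ℕ, @FirstOrder.Language.Theory.Model L ℕ M T →
          (∀ u v w, Relation.ReflTransGen (UnaryStep M) u v →
            Relation.ReflTransGen (UnaryStep M) u w →
            Relation.ReflTransGen (UnaryStep M) v w ∨ Relation.ReflTransGen (UnaryStep M) w v) ∧
          ∀ (n : ℕ) (R : L.Relations n) (v : Fin n → ℕ), 2 ≤ n →
            @FirstOrder.Language.Structure.RelMap L ℕ M n R v →
            ∃ u, ∀ i, Relation.ReflTransGen (UnaryStep M) u (v i)) →
        Dichotomy L T := by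
    intro L hL hF T hT
    -- the formulas `f x = y`
    let φ : L.Functions 1 → L.Formula (Fin 0 ⊕ Fin 2) := fun F =>
      FirstOrder.Language.Term.equal
        (FirstOrder.Language.Term.func F ![FirstOrder.Language.Term.var (Sum.inr 0)])
        (FirstOrder.Language.Term.var (Sum.inr 1))
    let Φ : ℕ → (m : ℕ) → Set (L.Formula (Fin m ⊕ Fin 2)) := fun _ m =>
      {ψ | ∃ h : m = 0, ∃ F : L.Functions 1, h ▸ ψ = φ F}
    refine h1 L hL T Φ fun M hM => ?_
    obtain ⟨hc, hr⟩ := hT M hM
    have hφ : ∀ (p : Fin 0 → ℕ) (F : L.Functions 1) (u v : ℕ), Holds M p (φ F) u v ↔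
        @FirstOrder.Language.Structure.funMap L ℕ M 1 F ![u] = v := by
      intro p F u v
      show @FirstOrder.Language.Formula.Realize L ℕ M _ (φ F) _ ↔ _
      rw [FirstOrder.Language.Formula.realize_equal]
      have e1 : (fun i : Fin 1 => @FirstOrder.Language.Term.realize L ℕ M _
          (Sum.elim p ![u, v] : Fin 0 ⊕ Fin 2 → ℕ)
          ((![FirstOrder.Language.Term.var (Sum.inr 0)] : Fin 1 → L.Term (Fin 0 ⊕ Fin 2)) i)) =
          ![u] := by
        funext i
        fin_cases i
        rfl
      have e2 : @FirstOrder.Language.Term.realize L ℕ M _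
          (Sum.elim p ![u, v] : Fin 0 ⊕ Fin 2 → ℕ)
          (FirstOrder.Language.Term.func F ![FirstOrder.Language.Term.var (Sum.inr 0)]) =
          @FirstOrder.Language.Structure.funMap L ℕ M 1 F ![u] := by
        rw [FirstOrder.Language.Term.realize_func, e1]
      rw [e2]
      exact Iff.rfl
    have hn : ∀ p : Fin 0 → ℕ, Names M p (Φ 0 0) = UnaryStep M := by
      intro p
      funext u v
      apply propext
      constructor
      · rintro ⟨ψ, ⟨h, F, hF⟩, h3, -⟩
        have h4 : ψ = φ F := hF
        rw [h4] at h3
        exact ⟨F, (hφ p F u v).1 h3⟩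
      · rintro ⟨F, h3⟩
        refine ⟨φ F, ⟨rfl, F, rfl⟩, (hφ p F u v).2 h3, fun w hw => ?_⟩
        rw [← (hφ p F u w).1 hw, h3]
    refine ⟨0, 0, Fin.elim0, ?_⟩
    rw [hn]
    refine ⟨hc, fun n R v hv => ?_, fun n F v => ?_⟩
    · rcases Nat.lt_or_ge n 2 with h | h
      · interval_cases n
        · exact ⟨0, fun i => i.elim0⟩
        · refine ⟨v 0, fun i => ?_⟩
          have : i = 0 := Subsingleton.elim _ _
          rw [this]
      · exact hr n R v h hv
    · rcases Nat.lt_or_ge n 2 with h | h
      · interval_cases n
        · exact ⟨_, Relation.ReflTransGen.refl, fun i => i.elim0⟩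
        · refine ⟨v 0, Relation.ReflTransGen.single ⟨F, ?_⟩, fun i => ?_⟩
          · congr 1
            funext i
            have : i = 0 := Subsingleton.elim _ _
            rw [this]
            rfl
          · have : i = 0 := Subsingleton.elim _ _
            rw [this]
      · exact ((hF n h).false F).elim
  refine ⟨h1, h2, ?_⟩
  intro S _ hS L hL hF f hf T hT
  refine h2 L hL hF T fun M hM => ?_
  obtain ⟨ho, hm, hr⟩ := hT M hM
  have key : ∀ u v, Relation.ReflTransGen (UnaryStep M) u v →
      ∃ s, @FirstOrder.Language.Structure.funMap L ℕ M 1 (f s) ![u] = v := by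
    intro u v h
    induction h with
    | refl => exact ⟨1, ho u⟩
    | tail _ h3 ih =>
      obtain ⟨s, rfl⟩ := ih
      obtain ⟨F, rfl⟩ := h3
      obtain ⟨t, rfl⟩ := hf F
      exact ⟨t * s, hm t s u⟩
  have key' : ∀ u s, Relation.ReflTransGen (UnaryStep M) u
      (@FirstOrder.Language.Structure.funMap L ℕ M 1 (f s) ![u]) := fun u s =>
    Relation.ReflTransGen.single ⟨f s, rfl⟩
  refine ⟨fun u v w h3 h4 => ?_, fun n R v h3 h4 => ?_⟩
  · obtain ⟨s, rfl⟩ := key _ _ h3
    obtain ⟨t, rfl⟩ := key _ _ h4
    rcases hS s t with ⟨c, hc⟩ | ⟨c, hc⟩
    · right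
      rw [← hc, hm]
      exact key' _ c
    · left
      rw [← hc, hm]
      exact key' _ c
  · obtain ⟨u, s, hs⟩ := hr n R v h3 h4
    refine ⟨u, fun i => ?_⟩
    rw [← hs i]
    exact key' _ _

end Pool.Agent.Results.MP_5df2c5_lc.ChainsOfNamedElements
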