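import Pool.Agent.N643.MN.FO
import Pool.Agent.N643.MN.Mso

set_option autoImplicit false

/-!
# Vaught's conjecture for ordered structures of locally finite cut-rank

Vaught's conjecture, perfect-set form, for countable structures with a definable linear order and
with relations of bounded arity such that there are only finitely many rows at each cut of the order.

Let `x` be a structure with relations of arity at most `k + 1` and let `<` be a linear order of its
universe. At the cut below a point `c`, the row of a `k`-tuple `s` of points below `c` consists of all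
atomic formulas, with at least one parameter, that `s` satisfies with parameters which are not
below `c`. Suppose that for all `p` and `q` there is `n` such that at each cut between `p` and `q` the
`k`-tuples have at most `n` rows. For a binary relation this means that at each cut the bipartite
relation between the points below and above the cut is given by a finite matrix (finite cut-rank,
i.e. locally bounded linear clique-width along the order); for a ternary relation the same is required
for the pairs of points below the cut. Examples are linear orders with any unary predicates and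
with finitely many relations, of any arities, which are definable in monadic second-order logic (with
set parameters) from the order, such as convex equivalence relations, the relations `an even (or any
prescribed finite) number of elements of P lies between u and v`, additive colourings of the pairs in
finite semigroups, and the relations recognised by a finite automaton reading the coloured
interval between two points.

(1) Let `B` be an isomorphism-invariant Borel class of countable structures with relations of arity
at most `k + 1`, and let countably many binary relations `D i` be defined on each structure in a Borel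
and equivariant way from finitely many parameters. If for every structure in `B`, for suitable
parameters, one of the relations `D i` is a linear order with locally boundedly many rows, then `B`
has countably many isomorphism types or contains a perfect set of pairwise non-isomorphic
structures.
(2) In particular this holds for every first-order theory in a countable relational language of
bounded arity such that in each model with universe `ℕ` there is, for suitable parameters, a
definable linear order with locally boundedly many rows.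
(3), (4) The dichotomy also holds for such classes and theories if only finitely many relations have
arity at least two and if in each structure of the class (each model with universe `ℕ`), for suitable
parameters, one of the relations `D i` (a definable relation) is a linear order such that each
relation of arity at least two is definable from the order by a formula of monadic second-order logic
with arbitrary sets as parameters. (By the composition method, there are then only boundedly many
rows.) There are countably many further unary predicates without any condition.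

If all relations are unary, this is Rubin's theorem on coloured linear orders (in the form for Borel
classes). In general, the rows at the cuts form a family of finite sets with maps between them, as in
the theorem of Myhill and Nerode. All enumerations of these sets together form a weak order with
finite rigid blocks and an additive colouring, from which the structure can be recovered; for these
objects the dichotomy is proved by an analysis of the convex condensations.
-/

namespace Pool.Agent.Results.MP_5df2c5_lc.FiniteCutRank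

open FirstOrder

/-- Relational structures on `ℕ` with relations of arities `a 0, a 1, ...`. -/
abbrev Str (a : ℕ → ℕ) : Type := (i : ℕ) → (Fin (a i) → ℕ) → Bool

/-- Isomorphism of structures. -/
def Iso {a : ℕ → ℕ} (x y : Str a) : Prop :=
  ∃ σ : Equiv.Perm ℕ, ∀ (i : ℕ) (v : Fin (a i) → ℕ), y i (⇑σ ∘ v) = x i v

/-- Relabelling of a structure by a permutation. -/
def act {a : ℕ → ℕ} (σ : Equiv.Perm ℕ) (x : Str a) : Str a := fun i v => x i (⇑σ.symm ∘ v)

/-- The class `B` has countably many isomorphism types, or there is a continuous family of pairwise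
non-isomorphic members of `B` indexed by the Cantor space. -/
def CountableOrPerfect {a : ℕ → ℕ} (B : Set (Str a)) : Prop :=
  (∃ f : ℕ → Str a, ∀ x ∈ B, ∃ n, Iso (f n) x) ∨
  (∃ g : (ℕ → Bool) → Str a, Continuous g ∧ (∀ c, g c ∈ B) ∧ ∀ c d, Iso (g c) (g d) → c = d)

/-- `lt` is a strict linear order of `ℕ`. -/
structure StrictLinear (lt : ℕ → ℕ → Prop) : Prop where
  irrefl : ∀ m, ¬ lt m m
  trans : ∀ m n k, lt m n → lt n k → lt m k
  total : ∀ m n, m = n ∨ lt m n ∨ lt n m

/-- Binary relations on structures which are defined from finitely many parameters in a Borel way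
that commutes with the permutations of `ℕ` (by the theorem of Lopez-Escobar, these are the relations
defined by formulas of `L_ω₁ω`). -/
structure Definable {a : ℕ → ℕ} (D : List ℕ → Str a → ℕ → ℕ → Prop) : Prop where
  borel : ∀ p m n, MeasurableSet {x | D p x m n}
  equivariant : ∀ p x (σ : Equiv.Perm ℕ) m n, D (p.map σ) (act σ x) (σ m) (σ n) ↔ D p x m n

/-- The values at an argument tuple which consists of entries of the tuple `s` and of
parameters. -/
def subst {k n : ℕ} (f : Fin n → Fin k ⊕ ℕ) (s : Fin k → ℕ) : Fin n → ℕ :=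
  fun j => Sum.elim s id (f j)

/-- The argument pattern `f` has parameters, and all of them are at least `c`. -/
def Above (lt : ℕ → ℕ → Prop) (c : ℕ) {k n : ℕ} (f : Fin n → Fin k ⊕ ℕ) : Prop :=
  (∃ j b, f j = Sum.inr b) ∧ ∀ j b, f j = Sum.inr b → ¬ lt b c

/-- The tuples `s` and `t` have the same row at the cut below `c`: the same relations hold between
their entries and parameters which are at least `c`. -/
def SameRow {a : ℕ → ℕ} (x : Str a) (lt : ℕ → ℕ → Prop) (c : ℕ) {k : ℕ} (s t : Fin k → ℕ) : Prop :=
  ∀ (i : ℕ) (f : Fin (a i) → Fin k ⊕ ℕ), Above lt c f → x i (subst f s) = x i (subst f t)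

/-- There are boundedly many rows on each interval: if `E c` is the relation of having the same row
at the cut below `c`, then for all `p` and `q` there is a number `n` such that for each `c` in the
interval from `p` to `q` the `k`-tuples of points below `c` have at most `n` rows. -/
def LocallyBounded (lt : ℕ → ℕ → Prop) (k : ℕ) (E : ℕ → (Fin k → ℕ) → (Fin k → ℕ) → Prop) : Prop :=
  ∀ p q, ∃ n : ℕ, ∀ c, ¬ lt c p → ¬ lt q c →
    ∃ r : Fin n → Fin k → ℕ, ∀ s : Fin k → ℕ, (∀ i, lt (s i) c) → ∃ m, E c s (r m)

/-- Vaught's conjecture, perfect-set form, for the theory `T` in the language `L` (the body of the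
frozen statement): the models with universe `ℕ` fall into countably many isomorphism classes, or
some continuous family of models, indexed by the Cantor space, consists of pairwise
non-isomorphic models. -/
def Dichotomy (L : FirstOrder.Language.{0, 0}) (T : L.Theory) : Prop :=
  (∃ g : ℕ → L.Structure ℕ, ∀ S : L.Structure ℕ,
      @FirstOrder.Language.Theory.Model L ℕ S T →
        ∃ n : ℕ, Nonempty (@FirstOrder.Language.Equiv L ℕ ℕ S (g n))) ∨
  (∃ f : (ℕ → Bool) → L.Structure ℕ,
      (∀ x : ℕ → Bool, @FirstOrder.Language.Theory.Model L ℕ (f x) T) ∧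
      (∀ x y : ℕ → Bool,
          Nonempty (@FirstOrder.Language.Equiv L ℕ ℕ (f x) (f y)) → x = y) ∧
      (∀ (n : ℕ) (R : L.Relations n) (a : Fin n → ℕ),
          IsClopen {x : ℕ → Bool | @FirstOrder.Language.Structure.RelMap L ℕ (f x) n R a}) ∧
      (∀ (n : ℕ) (F : L.Functions n) (a : Fin n → ℕ) (b : ℕ),
          IsOpen {x : ℕ → Bool | @FirstOrder.Language.Structure.funMap L ℕ (f x) n F a = b}))

/-- The binary relation that the formula `φ` defines in the structure `S` with the parameters `p`. -/
def Rel {L : FirstOrder.Language.{0, 0}} (S : L.Structure ℕ) {k : ℕ} (p : Fin k → ℕ)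
    (φ : L.Formula (Fin k ⊕ Fin 2)) (u v : ℕ) : Prop :=
  @FirstOrder.Language.Formula.Realize L ℕ S _ φ (Sum.elim p ![u, v])

/-- The tuples `s` and `t` have the same row at the cut below `c` in the structure `S`. -/
def SameRowFO {L : FirstOrder.Language.{0, 0}} (S : L.Structure ℕ) (lt : ℕ → ℕ → Prop) (c : ℕ)
    {k : ℕ} (s t : Fin k → ℕ) : Prop :=
  ∀ (n : ℕ) (R : L.Relations n) (f : Fin n → Fin k ⊕ ℕ), Above lt c f →
    (@FirstOrder.Language.Structure.RelMap L ℕ S n R (subst f s) ↔
      @FirstOrder.Language.Structure.RelMap L ℕ S n R (subst f t))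

/-- Formulas of monadic second-order logic in the language of one binary relation symbol, with `e`
free element variables and `s` free set variables. -/
inductive MSO : ℕ → ℕ → Type
  | eq {e s : ℕ} (i j : Fin e) : MSO e s
  | lt {e s : ℕ} (i j : Fin e) : MSO e s
  | mem {e s : ℕ} (i : Fin e) (j : Fin s) : MSO e s
  | not {e s : ℕ} (φ : MSO e s) : MSO e s
  | and {e s : ℕ} (φ ψ : MSO e s) : MSO e s
  | all1 {e s : ℕ} (φ : MSO (e + 1) s) : MSO e s
  | all2 {e s : ℕ} (φ : MSO e (s + 1)) : MSO e s

/-- Satisfaction in `ℕ` with the relation `r`: `all1` quantifies over the elements of `ℕ`, `all2` over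
the subsets of `ℕ` (the new variable is the last one). -/
def MSO.Sat (r : ℕ → ℕ → Prop) : {e s : ℕ} → MSO e s → (Fin e → ℕ) → (Fin s → Set ℕ) → Prop
  | _, _, .eq i j, v, _ => v i = v j
  | _, _, .lt i j, v, _ => r (v i) (v j)
  | _, _, .mem i j, v, P => v i ∈ P j
  | _, _, .not φ, v, P => ¬ φ.Sat r v P
  | _, _, .and φ ψ, v, P => φ.Sat r v P ∧ ψ.Sat r v P
  | _, _, .all1 φ, v, P => ∀ x : ℕ, φ.Sat r (Fin.snoc v x) P
  | _, _, .all2 φ, v, P => ∀ X : Set ℕ, φ.Sat r v (Fin.snoc P X)

/-- The relation `R` is definable in monadic second-order logic from the order `lt` with sets as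
parameters. -/
def MSODefinable (lt : ℕ → ℕ → Prop) {n : ℕ} (R : (Fin n → ℕ) → Prop) : Prop :=
  ∃ (s : ℕ) (φ : MSO n s) (P : Fin s → Set ℕ), ∀ v, R v ↔ φ.Sat lt v P

/-- translation to the library's copy of the definition -/
def toLib : {e s : ℕ} → MSO e s → Pool.Agent.N643.MN.Mso.MSO e s
  | _, _, .eq i j => .eq i j
  | _, _, .lt i j => .lt i j
  | _, _, .mem i j => .mem i j
  | _, _, .not φ => .not (toLib φ)
  | _, _, .and φ ψ => .and (toLib φ) (toLib ψ)
  | _, _, .all1 φ => .all1 (toLib φ)
  | _, _, .all2 φ => .all2 (toLib φ)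

theorem sat_toLib (r : ℕ → ℕ → Prop) {e s : ℕ} (φ : MSO e s) :
    ∀ (v : Fin e → ℕ) (P : Fin s → Set ℕ), (toLib φ).Sat r v P ↔ φ.Sat r v P := by
  induction φ with
  | eq i j => exact fun v P => Iff.rfl
  | lt i j => exact fun v P => Iff.rfl
  | mem i j => exact fun v P => Iff.rfl
  | not φ ih => exact fun v P => not_congr (ih v P)
  | and φ ψ ih1 ih2 => exact fun v P => and_congr (ih1 v P) (ih2 v P)
  | all1 φ ih => exact fun v P => forall_congr' fun x => ih _ P
  | all2 φ ih => exact fun v P => forall_congr' fun X => ih v _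

theorem bounded_of_mso {a : ℕ → ℕ} (ha : {i | 2 ≤ a i}.Finite) (x : Str a) {lt : ℕ → ℕ → Prop}
    (hl : StrictLinear lt) (h : ∀ j, 2 ≤ a j → MSODefinable lt fun v => x j v = true) (k : ℕ) :
    LocallyBounded lt k fun c => SameRow x lt c := by
  intro p q
  obtain ⟨n, hn⟩ := Pool.Agent.N643.MN.Mso.lb_mso (fun i v => x i v = true) lt hl.irrefl hl.trans
    hl.total ha (fun i hi => by
      obtain ⟨s, φ, P, hφ⟩ := h i hi
      exact ⟨s, toLib φ, P, fun v => (hφ v).trans (sat_toLib lt φ v P).symm⟩) k
  refine ⟨n, fun c _ _ => ?_⟩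
  obtain ⟨r, hr⟩ := hn c
  refine ⟨r, fun s hs => ?_⟩
  obtain ⟨m, hm⟩ := hr s hs
  refine ⟨m, fun i f hf => ?_⟩
  have h1 := hm i f hf
  exact Bool.eq_iff_iff.2 h1

theorem bounded_of_mso_FO {L : FirstOrder.Language.{0, 0}}
    (ha : {i : Σ n, L.Relations n | 2 ≤ i.1}.Finite) (S : L.Structure ℕ) {lt : ℕ → ℕ → Prop}
    (hl : StrictLinear lt) (h : ∀ (n : ℕ) (R : L.Relations n), 2 ≤ n → MSODefinable lt fun v =>
      @FirstOrder.Language.Structure.RelMap L ℕ S n R v) (k : ℕ) :
    LocallyBounded lt k fun c => SameRowFO S lt c := by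
  intro p q
  obtain ⟨n, hn⟩ := Pool.Agent.N643.MN.Mso.lb_mso (ι := Σ n, L.Relations n) (ar := fun i => i.1)
    (fun i v => @FirstOrder.Language.Structure.RelMap L ℕ S i.1 i.2 v) lt hl.irrefl hl.trans
    hl.total ha (fun i hi => by
      obtain ⟨s, φ, P, hφ⟩ := h i.1 i.2 hi
      exact ⟨s, toLib φ, P, fun v => (hφ v).trans (sat_toLib lt φ v P).symm⟩) k
  refine ⟨n, fun c _ _ => ?_⟩
  obtain ⟨r, hr⟩ := hn c
  refine ⟨r, fun s hs => ?_⟩
  obtain ⟨m, hm⟩ := hr s hs
  exact ⟨m, fun i R f hf => hm ⟨i, R⟩ f hf⟩

theorem part1 (k : ℕ) (a : ℕ → ℕ) (ha : ∀ i, a i ≤ k + 1)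
    (D : ℕ → List ℕ → Str a → ℕ → ℕ → Prop) (hD : ∀ i, Definable (D i))
    (B : Set (Str a)) (hB : MeasurableSet B) (hi : ∀ x y, Iso x y → (x ∈ B ↔ y ∈ B))
    (h : ∀ x ∈ B, ∃ i p, StrictLinear (D i p x) ∧
      LocallyBounded (D i p x) k fun c => SameRow x (D i p x) c) : CountableOrPerfect B := by
  classical
  refine Pool.Agent.N643.MN.vc_Wk (D := D) (k := k)
    (fun i => ⟨(hD i).borel, (hD i).equivariant⟩) ha B hB hi fun x hx => ?_
  obtain ⟨i, p, h1, h2⟩ := h x hx
  refine ⟨i, p, ⟨fun m => decide_eq_false (h1.irrefl m), fun m n q h3 h4 => ?_,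
    fun m n => ?_⟩, fun q r => ?_⟩
  · exact decide_eq_true (h1.trans m n q (of_decide_eq_true h3) (of_decide_eq_true h4))
  · rcases h1.total m n with h3 | h3 | h3
    · exact Or.inl h3
    · exact Or.inr (Or.inl (decide_eq_true h3))
    · exact Or.inr (Or.inr (decide_eq_true h3))
  · obtain ⟨n, hn⟩ := h2 q r
    refine ⟨n, fun c h3 h4 => ?_⟩
    obtain ⟨Z, hZ⟩ := hn c (of_decide_eq_false h3) (of_decide_eq_false h4)
    refine ⟨Z, fun s hs => ?_⟩
    obtain ⟨m, hm⟩ := hZ s fun i => of_decide_eq_true (hs i)
    exact ⟨m, fun j f h5 h6 => hm j f ⟨h5, fun t b hb => of_decide_eq_false (h6 t b hb)⟩⟩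

theorem part2 (L : FirstOrder.Language.{0, 0}) (hL : Countable L.Symbols) (hR : L.IsRelational)
    (k : ℕ) (hk : ∀ n, k + 1 < n → IsEmpty (L.Relations n)) (T : L.Theory)
    (hT : ∀ S : L.Structure ℕ, @FirstOrder.Language.Theory.Model L ℕ S T →
        ∃ (m : ℕ) (p : Fin m → ℕ) (φ : L.Formula (Fin m ⊕ Fin 2)), StrictLinear (Rel S p φ) ∧
          LocallyBounded (Rel S p φ) k fun c => SameRowFO S (Rel S p φ) c) : Dichotomy L T := by
  have hc : Countable (Σ n, L.Relations n) := by
    have hL' : Countable ((Σ n, L.Functions n) ⊕ Σ n, L.Relations n) := hL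
    exact (Sum.inr_injective (α := Σ n, L.Functions n) (β := Σ n, L.Relations n)).countable
  rcases Pool.Agent.N643.MN.FO.fo_dichotomy hc T k hk (fun S hS => by
    obtain ⟨m, p, φ, h1, h2⟩ := hT S hS
    refine ⟨m, p, φ, Rel S p φ, fun _ _ => Iff.rfl, h1.irrefl, h1.trans, h1.total,
      fun q r => ?_⟩
    obtain ⟨n, hn⟩ := h2 q r
    refine ⟨n, fun c h3 h4 => ?_⟩
    obtain ⟨Z, hZ⟩ := hn c h3 h4
    refine ⟨Z, fun s hs => ?_⟩
    obtain ⟨m, hm⟩ := hZ s hs
    exact ⟨m, fun j R f h5 h6 => hm j R f ⟨h5, h6⟩⟩) with h | ⟨f, h1, h2, h3⟩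
  · exact Or.inl h
  · exact Or.inr ⟨f, h1, h2, h3, fun n F => isEmptyElim F⟩

theorem result :
    (∀ (k : ℕ) (a : ℕ → ℕ), (∀ i, a i ≤ k + 1) →
      ∀ D : ℕ → List ℕ → Str a → ℕ → ℕ → Prop, (∀ i, Definable (D i)) →
      ∀ B : Set (Str a), MeasurableSet B → (∀ x y, Iso x y → (x ∈ B ↔ y ∈ B)) →
        (∀ x ∈ B, ∃ i p, StrictLinear (D i p x) ∧
          LocallyBounded (D i p x) k fun c => SameRow x (D i p x) c) →
        CountableOrPerfect B) ∧
    (∀ L : FirstOrder.Language.{0, 0}, Countable L.Symbols → L.IsRelational →
      ∀ k : ℕ, (∀ n, k + 1 < n → IsEmpty (L.Relations n)) → ∀ T : L.Theory,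
      (∀ S : L.Structure ℕ, @FirstOrder.Language.Theory.Model L ℕ S T →
        ∃ (m : ℕ) (p : Fin m → ℕ) (φ : L.Formula (Fin m ⊕ Fin 2)), StrictLinear (Rel S p φ) ∧
          LocallyBounded (Rel S p φ) k fun c => SameRowFO S (Rel S p φ) c) →
      Dichotomy L T) ∧
    (∀ a : ℕ → ℕ, {i | 2 ≤ a i}.Finite →
      ∀ D : ℕ → List ℕ → Str a → ℕ → ℕ → Prop, (∀ i, Definable (D i)) →
      ∀ B : Set (Str a), MeasurableSet B → (∀ x y, Iso x y → (x ∈ B ↔ y ∈ B)) →
        (∀ x ∈ B, ∃ i p, StrictLinear (D i p x) ∧
          ∀ j, 2 ≤ a j → MSODefinable (D i p x) fun v => x j v = true) →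
        CountableOrPerfect B) ∧
    (∀ L : FirstOrder.Language.{0, 0}, Countable L.Symbols → L.IsRelational →
      {i : Σ n, L.Relations n | 2 ≤ i.1}.Finite → ∀ T : L.Theory,
      (∀ S : L.Structure ℕ, @FirstOrder.Language.Theory.Model L ℕ S T →
        ∃ (m : ℕ) (p : Fin m → ℕ) (φ : L.Formula (Fin m ⊕ Fin 2)), StrictLinear (Rel S p φ) ∧
          ∀ (n : ℕ) (R : L.Relations n), 2 ≤ n → MSODefinable (Rel S p φ) fun v =>
            @FirstOrder.Language.Structure.RelMap L ℕ S n R v) →
      Dichotomy L T) := by
  refine ⟨part1, part2, fun a ha D hD B hB hi h => ?_, fun L hL hR ha T hT => ?_⟩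
  · obtain ⟨K, hK⟩ := (ha.image a).bddAbove
    refine part1 (K + 1) a (fun i => ?_) D hD B hB hi fun x hx => ?_
    · by_cases h2 : 2 ≤ a i
      · have := hK ⟨i, h2, rfl⟩
        omega
      · omega
    · obtain ⟨i, p, h1, h2⟩ := h x hx
      exact ⟨i, p, h1, bounded_of_mso ha x h1 h2 _⟩
  · obtain ⟨K, hK⟩ := (ha.image Sigma.fst).bddAbove
    refine part2 L hL hR (K + 1) (fun n hn => ⟨fun R => ?_⟩) T fun S hS => ?_
    · have := hK ⟨⟨n, R⟩, (show 2 ≤ n by omega), rfl⟩
      have h3 : n ≤ K := this
      omega
    · obtain ⟨m, p, φ, h1, h2⟩ := hT S hS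
      exact ⟨m, p, φ, h1, bounded_of_mso_FO ha S h1 h2 _⟩

end Pool.Agent.Results.MP_5df2c5_lc.FiniteCutRank
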