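import Pool.Agent.N643.TD.MAINA
import Pool.Agent.N643.TD.FOG2
import Pool.Agent.N643.TD.TOrd

set_option autoImplicit false

/-!
# Vaught's conjecture for structures of bounded cut-rank over a tree

(helper643, helper603, helper712, helper803, helper46, helper891, helper568, helper407, helper738,
helper588, helper8, helper441, helper755, helper368, helper79, helper27, helper222)

Vaught's conjecture, perfect-set form, for countable structures with a definable tree such that
there are boundedly many rows at each node of the tree. The tree is arbitrary: it may be dense, it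
need not be well founded, and the nodes may have infinitely many children.

A tree structure on the set of leaves is given by a C-relation: `C x y z` means that `x` and `y`
branch off together from `z`. (All semilinear orders, i.e. all trees in the sense of Steel's theorem,
are of this form, with the points as leaves, `C x y z` iff `t ≤ x`, `t ≤ y` and not `t ≤ z` for
some `t`, or `x = y ≠ z`; in particular all linear orders are.) The node at which two leaves
`x ≠ y` branch off from each other is given by the set of the leaves `u` with `¬ C x y u`, and the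
child of `u` at this node is the set of the leaves `v` with `C u v x` or `C u v y`. Suppose that for
each union `Y` of children of a node the elements of `Y` satisfy at most `n` patterns of atomic
formulas with an element outside of `Y` (bounded cut-rank, i.e. bounded clique-width, along the
given tree). There is no condition, for example, if there are only unary predicates. The condition
also holds if there are only finitely many binary relations and these are definable in monadic
second-order logic, with arbitrary sets as parameters, from the tree. The number `n` depends on the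
structure.

(1) Let `B` be an isomorphism-invariant Borel class of countable structures. Suppose that each
structure `x` in `B` is, by one of countably many pairs `c i`, `d i` of Borel equivariant
(i.e. `L_ω₁ω`-) definitions with finitely many parameters, interdefinable with a structure on the
same universe with a C-relation and (countably many) further relations of arity at most two, which
has boundedly many rows at the nodes. Then `B` has countably many isomorphism types or contains a
perfect set of pairwise non-isomorphic structures.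
(2) In particular this holds for every first-order theory `T` in a countable relational language with
finitely many symbols of arity at least three such that in each model with universe `ℕ`, for suitable
parameters, there is a definable C-relation with, with respect to the symbols of arity at most two,
boundedly many rows at the nodes, and the other relations are first-order definable from the
C-relation and the relations of arity at most two.
(3), (4) The same dichotomy if, instead of the condition on the rows, there are only finitely many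
relations of arity two and these are definable from the C-relation in monadic second-order logic with
sets as parameters. (By the composition method, there are then only boundedly many rows.) There may
be countably many unary predicates without any condition.
(5) In particular the dichotomy holds for every first-order theory in a relational language with
finitely many binary and countably many unary relation symbols such that each model with universe
`ℕ` has a tree order, definable with parameters, from which the binary relations are definable in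
monadic second-order logic with sets as parameters. (Steel's theorem is the case that there is only
one binary relation symbol, and it is interpreted by the tree order.)

The proof is an analysis of the big cones (those with uncountably many variations) in the style of
Steel's proof for trees; the case without two disjoint big cones is encoded, canonically, by a linear
order with unary predicates, an equivalence relation and finitely many rows at each cut, and there the
dichotomy is proved with the theorem of Myhill and Nerode (files `Pool.Agent.N643.MN`). The levels of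
the linear order are infinitely branching nodes; their isomorphism types are determined by the
numbers of equivalent children, with respect to finitely many reference points.
-/

namespace Pool.Agent.Results.MP_5df2c5_lc.TreeCutRank

open FirstOrder
open Pool.Agent.N643.TD (TL L2 TSt red)

/-- Relational structures on `ℕ` with relations of arities `a 0, a 1, ...`. -/
abbrev Str (a : ℕ → ℕ) : Type := (i : ℕ) → (Fin (a i) → ℕ) → Bool

/-- Isomorphism of structures. -/
def Iso {a : ℕ → ℕ} (x y : Str a) : Prop :=
  ∃ σ : Equiv.Perm ℕ, ∀ (i : ℕ) (v : Fin (a i) → ℕ), y i (⇑σ ∘ v) = x i v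

/-- Relabelling of a structure by a permutation. -/
def act {a : ℕ → ℕ} (σ : Equiv.Perm ℕ) (x : Str a) : Str a := fun i v => x i (⇑σ.symm ∘ v)

/-- The class `B` has countably many isomorphism types, or there is a continuous family of pairwise
non-isomorphic members of `B` indexed by the Cantor space. -/
def CountableOrPerfect {a : ℕ → ℕ} (B : Set (Str a)) : Prop :=
  (∃ f : ℕ → Str a, ∀ x ∈ B, ∃ n, Iso (f n) x) ∨
  (∃ g : (ℕ → Bool) → Str a, Continuous g ∧ (∀ c, g c ∈ B) ∧ ∀ c d, Iso (g c) (g d) → c = d)

/-- Maps between structures on the same universe which depend on finitely many parameters in a Borel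
way that commutes with the permutations of `ℕ` (by the theorem of Lopez-Escobar, the relations of
`c p x` are defined in `x` by formulas of `L_ω₁ω` with the parameters `p`). -/
structure Definition {a b : ℕ → ℕ} (c : List ℕ → Str a → Str b) : Prop where
  borel : ∀ p, Measurable (c p)
  equivariant : ∀ p x (σ : Equiv.Perm ℕ), c (p.map σ) (act σ x) = act σ (c p x)

/-- `C x y z` (`x` and `y` are in the same branch away from `z`) is a C-relation, i.e. the tree
structure on the set `ℕ` of leaves. -/
structure CRelation (C : ℕ → ℕ → ℕ → Prop) : Prop where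
  refl : ∀ x z, x ≠ z → C x x z
  irrefl : ∀ x y, ¬ C x y x
  symm : ∀ x y z, C x y z → C y x z
  asymm : ∀ x y z, C x y z → ¬ C x z y
  trans : ∀ x y z, C x y z → ∀ w, C x y w ∨ C w y z

/-- At most `n` classes of the relation `E Y` in each set `Y` of leaves which is a union of children
of a node: the node at which `x ≠ y` branch off from each other consists of the leaves `u` with
`¬ C x y u`, and the child of `u` consists of the leaves `v` with `C u v x` or `C u v y`. -/
def BoundedRows (n : ℕ) (C : ℕ → ℕ → ℕ → Prop) (E : Set ℕ → ℕ → ℕ → Prop) : Prop :=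
  ∀ x y, x ≠ y → ∀ Y : Set ℕ, (∀ u ∈ Y, ¬ C x y u) → (∀ u ∈ Y, ∀ v, C u v x ∨ C u v y → v ∈ Y) →
    ∀ e : Fin (n + 1) → ℕ, (∀ i, e i ∈ Y) → ∃ i j, i ≠ j ∧ E Y (e i) (e j)

/-- The points `u` and `v` have the same row over the complement of `Y`: the same atomic formulas
hold for `u` and `v` with all other entries outside of `Y` (and with at least one other entry). -/
def SameRow {a : ℕ → ℕ} (x : Str a) (Y : Set ℕ) (u v : ℕ) : Prop :=
  ∀ (i : ℕ) (t : Fin (a i) → ℕ) (k : Fin (a i)), (∃ l, l ≠ k) → (∀ l, l ≠ k → t l ∉ Y) →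
    x i (Function.update t k u) = x i (Function.update t k v)

/-- The arities `3, b 0, b 1, ...`. -/
def cons3 (b : ℕ → ℕ) : ℕ → ℕ
  | 0 => 3
  | j + 1 => b j

/-- The ternary relation in front. -/
def tern {b : ℕ → ℕ} (z : Str (cons3 b)) (x y w : ℕ) : Prop := z 0 ![x, y, w] = true

/-- The remaining relations. -/
def rest {b : ℕ → ℕ} (z : Str (cons3 b)) : Str b := fun j => z (j + 1)

/-- Vaught's conjecture, perfect-set form, for the theory `T` in the language `L` (the body of the
frozen statement): the models with universe `ℕ` fall into countably many isomorphism classes, or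
some continuous family of models, indexed by the Cantor space, consists of pairwise
non-isomorphic models. -/
def Dichotomy (L : FirstOrder.Language.{0, 0}) (T : L.Theory) : Prop :=
  (∃ g : ℕ → L.Structure ℕ, ∀ S : L.Structure ℕ,
      @FirstOrder.Language.Theory.Model L ℕ S T →
        ∃ n : ℕ, Nonempty (@FirstOrder.Language.Equiv L ℕ ℕ S (g n))) ∨
  (∃ f : (ℕ → Bool) → L.Structure ℕ,
      (∀ x : ℕ → Bool, @FirstOrder.Language.Theory.Model L ℕ (f x) T) ∧
      (∀ x y : ℕ → Bool,
          Nonempty (@FirstOrder.Language.Equiv L ℕ ℕ (f x) (f y)) → x = y) ∧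
      (∀ (n : ℕ) (R : L.Relations n) (a : Fin n → ℕ),
          IsClopen {x : ℕ → Bool | @FirstOrder.Language.Structure.RelMap L ℕ (f x) n R a}) ∧
      (∀ (n : ℕ) (F : L.Functions n) (a : Fin n → ℕ) (b : ℕ),
          IsOpen {x : ℕ → Bool | @FirstOrder.Language.Structure.funMap L ℕ (f x) n F a = b}))

/-- The ternary relation that the formula `φ` defines in the structure `S` with the
parameters `p`. -/
def Rel {L : FirstOrder.Language.{0, 0}} (S : L.Structure ℕ) {k : ℕ} (p : Fin k → ℕ)
    (φ : L.Formula (Fin k ⊕ Fin 3)) (u v w : ℕ) : Prop :=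
  @FirstOrder.Language.Formula.Realize L ℕ S _ φ (Sum.elim p ![u, v, w])

/-- The points `u` and `v` have the same row over the complement of `Y` with respect to the symbols
of arity at most two. -/
def SameRowFO {L : FirstOrder.Language.{0, 0}} (S : L.Structure ℕ) (Y : Set ℕ) (u v : ℕ) : Prop :=
  ∀ (j : ℕ) (R : L.Relations j), j ≤ 2 → ∀ (t : Fin j → ℕ) (k : Fin j), (∃ l, l ≠ k) →
    (∀ l, l ≠ k → t l ∉ Y) →
    (@FirstOrder.Language.Structure.RelMap L ℕ S j R (Function.update t k u) ↔
      @FirstOrder.Language.Structure.RelMap L ℕ S j R (Function.update t k v))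

/-- Each relation symbol of arity at least three is defined in `S`, with the parameters `p`, by a
formula `ψ` which uses only the symbols of arity at most two and a symbol for the relation `C`.
(`L2 L` is the language of the symbols of `L` of arity at most two, `red S` is the reduct of `S` to
it, `TL` adds a ternary relation symbol to a language, and `TSt (red S) C` is the expansion of
`red S` by the relation `C`.) -/
def HigherDefinable {L : FirstOrder.Language.{0, 0}} (S : L.Structure ℕ) {m : ℕ} (p : Fin m → ℕ)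
    (C : ℕ → ℕ → ℕ → Prop) : Prop :=
  ∀ (j : ℕ) (R : L.Relations j), 3 ≤ j → ∃ ψ : (TL (L2 L)).Formula (Fin m ⊕ Fin j),
    ∀ v : Fin j → ℕ, @FirstOrder.Language.Structure.RelMap L ℕ S j R v ↔
      @FirstOrder.Language.Formula.Realize (TL (L2 L)) ℕ (TSt (red S) C) _ ψ (Sum.elim p v)

/-- Formulas of monadic second-order logic in the language of one relation symbol of arity `k`, with
`e` free element variables and `s` free set variables. -/
inductive MSO (k : ℕ) : ℕ → ℕ → Type
  | eq {e s : ℕ} (i j : Fin e) : MSO k e s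
  | rel {e s : ℕ} (i : Fin k → Fin e) : MSO k e s
  | mem {e s : ℕ} (i : Fin e) (j : Fin s) : MSO k e s
  | not {e s : ℕ} (φ : MSO k e s) : MSO k e s
  | and {e s : ℕ} (φ ψ : MSO k e s) : MSO k e s
  | all1 {e s : ℕ} (φ : MSO k (e + 1) s) : MSO k e s
  | all2 {e s : ℕ} (φ : MSO k e (s + 1)) : MSO k e s

/-- Satisfaction in `ℕ` with the relation `r`: `all1` quantifies over the elements of `ℕ`, `all2`
over the subsets of `ℕ` (the new variable is the last one). -/
def MSO.Sat {k : ℕ} (r : (Fin k → ℕ) → Prop) :
    {e s : ℕ} → MSO k e s → (Fin e → ℕ) → (Fin s → Set ℕ) → Prop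
  | _, _, .eq i j, v, _ => v i = v j
  | _, _, .rel i, v, _ => r fun l => v (i l)
  | _, _, .mem i j, v, P => v i ∈ P j
  | _, _, .not φ, v, P => ¬ φ.Sat r v P
  | _, _, .and φ ψ, v, P => φ.Sat r v P ∧ ψ.Sat r v P
  | _, _, .all1 φ, v, P => ∀ x : ℕ, φ.Sat r (Fin.snoc v x) P
  | _, _, .all2 φ, v, P => ∀ X : Set ℕ, φ.Sat r v (Fin.snoc P X)

/-- The relation `R` is definable in monadic second-order logic from the relation `r` with sets as
parameters. -/
def MSODefinable {k : ℕ} (r : (Fin k → ℕ) → Prop) {n : ℕ} (R : (Fin n → ℕ) → Prop) : Prop :=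
  ∃ (s : ℕ) (φ : MSO k n s) (P : Fin s → Set ℕ), ∀ v, R v ↔ φ.Sat r v P

/-- A C-relation as a relation on triples. -/
def triples (C : ℕ → ℕ → ℕ → Prop) (t : Fin 3 → ℕ) : Prop := C (t 0) (t 1) (t 2)

/-- A binary relation as a relation on pairs. -/
def pairs (R : ℕ → ℕ → Prop) (t : Fin 2 → ℕ) : Prop := R (t 0) (t 1)

/-- Tree orders: partial orders such that the elements below any element form a chain. -/
structure TreeOrder (R : ℕ → ℕ → Prop) : Prop where
  refl : ∀ x, R x x
  trans : ∀ x y z, R x y → R y z → R x z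
  antisymm : ∀ x y, R x y → R y x → x = y
  chain : ∀ x y z, R x z → R y z → R x y ∨ R y x

/-- The binary relation that the formula `φ` defines in the structure `S` with the
parameters `p`. -/
def Rel2 {L : FirstOrder.Language.{0, 0}} (S : L.Structure ℕ) {k : ℕ} (p : Fin k → ℕ)
    (φ : L.Formula (Fin k ⊕ Fin 2)) (u v : ℕ) : Prop :=
  @FirstOrder.Language.Formula.Realize L ℕ S _ φ (Sum.elim p ![u, v])

/-- translation to the library's copy of the definition -/
def toLib : {e s : ℕ} → MSO 3 e s → Pool.Agent.N643.TD.Mso.MSO e s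
  | _, _, .eq i j => .eq i j
  | _, _, .rel i => .rel (i 0) (i 1) (i 2)
  | _, _, .mem i j => .mem i j
  | _, _, .not φ => .not (toLib φ)
  | _, _, .and φ ψ => .and (toLib φ) (toLib ψ)
  | _, _, .all1 φ => .all1 (toLib φ)
  | _, _, .all2 φ => .all2 (toLib φ)

theorem sat_toLib (C : ℕ → ℕ → ℕ → Prop) {e s : ℕ} (φ : MSO 3 e s) :
    ∀ (v : Fin e → ℕ) (P : Fin s → Set ℕ), (toLib φ).Sat C v P ↔ φ.Sat (triples C) v P := by
  induction φ with
  | eq i j => exact fun v P => Iff.rfl
  | rel i => exact fun v P => Iff.rfl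
  | mem i j => exact fun v P => Iff.rfl
  | not φ ih => exact fun v P => not_congr (ih v P)
  | and φ ψ ih1 ih2 => exact fun v P => and_congr (ih1 v P) (ih2 v P)
  | all1 φ ih => exact fun v P => forall_congr' fun x => ih _ P
  | all2 φ ih => exact fun v P => forall_congr' fun X => ih v _

/-- translation of formulas about a tree order to formulas about its C-relation -/
def toC : {e s : ℕ} → MSO 2 e s → MSO 3 e (s + 1)
  | _, _, .eq i j => .eq i j
  | e, _, .rel i => .not (.and (.not (.eq (i 0) (i 1))) (.not (.and (.mem (i 0) 0)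
      (.all1 (.not (.and (.not (.eq (Fin.last e) (i 0).castSucc))
        (.rel ![(i 0).castSucc, Fin.last e, (i 1).castSucc])))))))
  | _, _, .mem i j => .mem i j.succ
  | _, _, .not φ => .not (toC φ)
  | _, _, .and φ ψ => .and (toC φ) (toC ψ)
  | _, _, .all1 φ => .all1 (toC φ)
  | _, _, .all2 φ => .all2 (toC φ)

open Pool.Agent.N643.TD.Ord in
theorem sat_toC {R : ℕ → ℕ → Prop} (hR : TOrd R) {e s : ℕ} (φ : MSO 2 e s) :
    ∀ (v : Fin e → ℕ) (P : Fin s → Set ℕ),
      (toC φ).Sat (triples (cr R)) v (Fin.cons (nm R) P) ↔ φ.Sat (pairs R) v P := by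
  classical
  induction φ with
  | eq i j => exact fun v P => Iff.rfl
  | @rel e s i =>
    intro v P
    have h1 : (toC (MSO.rel i : MSO 2 e s)).Sat (triples (cr R)) v (Fin.cons (nm R) P) ↔
        ¬ (¬ v (i 0) = v (i 1) ∧ ¬ (v (i 0) ∈ nm R ∧ ∀ x, ¬ (¬ x = v (i 0) ∧
          cr R (v (i 0)) x (v (i 1))))) := by
      have h2 : ∀ x : ℕ, (Fin.snoc (α := fun _ => ℕ) v x) (Fin.last e) = x := fun x =>
        Fin.snoc_last _ _
      have h3 : ∀ (x : ℕ) (j : Fin e), (Fin.snoc (α := fun _ => ℕ) v x) j.castSucc = v j :=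
        fun x j => Fin.snoc_castSucc _ _ _
      show ¬ (¬ v (i 0) = v (i 1) ∧ ¬ (v (i 0) ∈ nm R ∧ ∀ x, ¬ (¬
        (Fin.snoc (α := fun _ => ℕ) v x) (Fin.last e) =
          (Fin.snoc (α := fun _ => ℕ) v x) (i 0).castSucc ∧
        cr R ((Fin.snoc (α := fun _ => ℕ) v x) (i 0).castSucc)
          ((Fin.snoc (α := fun _ => ℕ) v x) (Fin.last e))
          ((Fin.snoc (α := fun _ => ℕ) v x) (i 1).castSucc)))) ↔ _
      simp only [h2, h3]
    rw [h1]
    show _ ↔ R (v (i 0)) (v (i 1))
    rw [le_iff hR]
    constructor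
    · intro h
      by_contra h2
      refine h ⟨fun h3 => h2 (Or.inl h3), fun h3 => h2 (Or.inr ⟨h3.1, fun x => ?_⟩)⟩
      have h4 := h3.2 x
      tauto
    · rintro (h | h) ⟨h2, h3⟩
      · exact h2 h
      · refine h3 ⟨h.1, fun x hx => ?_⟩
        have h4 := h.2 x
        tauto
  | mem i j => exact fun v P => Iff.rfl
  | not φ ih => exact fun v P => not_congr (ih v P)
  | and φ ψ ih1 ih2 => exact fun v P => and_congr (ih1 v P) (ih2 v P)
  | all1 φ ih => exact fun v P => forall_congr' fun x => ih _ P
  | @all2 e s φ ih =>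
    intro v P
    refine forall_congr' fun X => ?_
    have h := ih v (Fin.snoc P X)
    rw [Fin.cons_snoc_eq_snoc_cons] at h
    exact h

/-- finitely many rows -/
theorem rows_of_mso {ι : Type} {ar : ι → ℕ} (R : (i : ι) → (Fin (ar i) → ℕ) → Prop)
    (C : ℕ → ℕ → ℕ → Prop) (hC : CRelation C) (hfin : {i | 2 ≤ ar i}.Finite)
    (h : ∀ i, 2 ≤ ar i → MSODefinable (triples C) (R i)) :
    ∃ n : ℕ, BoundedRows n C fun Y u v => ∀ (l : ι) (t : Fin (ar l) → ℕ) (k : Fin (ar l)),
      (∃ m, m ≠ k) → (∀ m, m ≠ k → t m ∉ Y) →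
        (R l (Function.update t k u) ↔ R l (Function.update t k v)) := by
  obtain ⟨n, hn⟩ := Pool.Agent.N643.TD.Mso.rows_mso R C hfin (fun i hi => by
    obtain ⟨s, φ, P, hφ⟩ := h i hi
    exact ⟨s, toLib φ, P, fun v => (hφ v).trans (sat_toLib C φ v P).symm⟩)
  exact ⟨n, fun x y _ Y h1 h2 e he => hn _ Y
    (Pool.Agent.N643.TD.Mso.mod_sec C hC.symm hC.asymm hC.trans x y Y h1 h2) e he⟩

theorem tr {C : ℕ → ℕ → ℕ → Prop} (h : CRelation C) {a b c d : ℕ} (ha : C d a c) (hb : C d b c) :
    C a b c := by
  rcases h.trans _ _ _ hb a with h1 | h1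
  · rcases h.trans _ _ _ ha b with h2 | h2
    · exact absurd h2 (h.asymm _ _ _ h1)
    · exact h.symm _ _ _ h2
  · exact h1

theorem un_node {C : ℕ → ℕ → ℕ → Prop} (h : CRelation C) {x y a w : ℕ} (ha : ¬ C x y a)
    (hw : C a w x ∨ C a w y) : ¬ C x y w := by
  intro h1
  have h2 : C a y w := (h.trans _ _ _ h1 a).resolve_left ha
  rcases hw with hw | hw
  · rcases h.trans _ _ _ hw y with h3 | h3
    · exact h.asymm _ _ _ h2 h3
    · exact h.asymm _ _ _ (h.symm _ _ _ h1) h3
  · exact h.asymm _ _ _ h2 hw

theorem un_child {C : ℕ → ℕ → ℕ → Prop} (h : CRelation C) {x y a u v : ℕ}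
    (hu : C a u x ∨ C a u y) (hv : C u v x ∨ C u v y) : C a v x ∨ C a v y := by
  have key : ∀ x y, C a u x → C u v y → C a v x ∨ C a v y := by
    intro x y h1 h2
    rcases h.trans _ _ _ h1 y with h3 | h3
    · exact Or.inr (tr h (h.symm _ _ _ h3) h2)
    · rcases h.trans _ _ _ h2 x with h4 | h4
      · exact Or.inl (tr h (h.symm _ _ _ h1) h4)
      · exact absurd (tr h (h.symm _ _ _ h2) (h.symm _ _ _ h4))
          (h.asymm _ _ _ (h.symm _ _ _ h3))
  rcases hu with hu | hu <;> rcases hv with hv | hv
  · exact Or.inl (tr h (h.symm _ _ _ hu) hv)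
  · exact key x y hu hv
  · exact (key y x hu hv).symm
  · exact Or.inr (tr h (h.symm _ _ _ hu) hv)

/-- the union of the children of finitely many points -/
theorem sec_of {C : ℕ → ℕ → ℕ → Prop} (h : CRelation C) {n : ℕ} {E : Set ℕ → ℕ → ℕ → Prop}
    (hr : BoundedRows n C E) (x y : ℕ) (hxy : x ≠ y) (e : Fin (n + 1) → ℕ)
    (he : ∀ i, ¬ C x y (e i)) :
    ∃ i j, i ≠ j ∧ E {w | ∃ k, C (e k) w x ∨ C (e k) w y} (e i) (e j) := by
  refine hr x y hxy _ ?_ ?_ e fun i => ?_
  · rintro u ⟨k, hk⟩
    exact un_node h (he k) hk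
  · rintro u ⟨k, hk⟩ v hv
    exact ⟨k, un_child h hk hv⟩
  · refine ⟨i, ?_⟩
    by_cases hx : e i = x
    · exact Or.inr (h.refl _ _ (by rw [hx]; exact hxy))
    · exact Or.inl (h.refl _ _ hx)

theorem tk_of {b : ℕ → ℕ} {n : ℕ} {z : Str (cons3 b)} (h1 : CRelation (tern z))
    (h3 : BoundedRows n (tern z) (SameRow (rest z))) : Pool.Agent.N643.TD.Tk (a := b) n z :=
  ⟨h1.refl, h1.irrefl, h1.symm, h1.asymm, h1.trans, sec_of h1 h3⟩

theorem part1 (a b : ℕ → ℕ) (hb : ∀ j, b j ≤ 2)
    (c : ℕ → List ℕ → Str a → Str (cons3 b)) (d : ℕ → List ℕ → Str (cons3 b) → Str a)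
    (hc : ∀ i, Definition (c i)) (hd : ∀ i, Definition (d i))
    (B : Set (Str a)) (hB : MeasurableSet B) (hi : ∀ x y, Iso x y → (x ∈ B ↔ y ∈ B))
    (h : ∀ x ∈ B, ∃ i p n, CRelation (tern (c i p x)) ∧
      BoundedRows n (tern (c i p x)) (SameRow (rest (c i p x))) ∧ d i p (c i p x) = x) :
    CountableOrPerfect B := by
  refine Pool.Agent.N643.TD.vc_gen Pool.Agent.N643.TD.main3 hb c d (fun i => ⟨(hc i).borel, (hd i).borel,
    fun σ p x => (hc i).equivariant p x σ, fun σ p z => (hd i).equivariant p z σ⟩) B hB hi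
    fun x hx => ?_
  obtain ⟨i, p, n, h1, h3, h4⟩ := h x hx
  exact ⟨i, p, n, tk_of h1 h3, h4⟩

theorem part2 (L : FirstOrder.Language.{0, 0})
    (hL : Countable L.Symbols) (hR : L.IsRelational)
    (hf : {R : Σ n, L.Relations n | 3 ≤ R.1}.Finite) (T : L.Theory)
    (hT : ∀ S : L.Structure ℕ, @FirstOrder.Language.Theory.Model L ℕ S T →
        ∃ (m : ℕ) (p : Fin m → ℕ) (φ : L.Formula (Fin m ⊕ Fin 3)) (n : ℕ),
          CRelation (Rel S p φ) ∧
          BoundedRows n (Rel S p φ) (SameRowFO S) ∧ HigherDefinable S p (Rel S p φ)) :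
    Dichotomy L T := by
  have hc : Countable (Σ n, L.Relations n) := by
    have hL' : Countable ((Σ n, L.Functions n) ⊕ Σ n, L.Relations n) := hL
    exact (Sum.inr_injective (α := Σ n, L.Functions n) (β := Σ n, L.Relations n)).countable
  rcases Pool.Agent.N643.TD.FO.fo_gen Pool.Agent.N643.TD.main3 hc hf T (fun S hS => by
    obtain ⟨m, p, φ, n, h1, h3, h4⟩ := hT S hS
    exact ⟨m, p, φ, Rel S p φ, n, fun _ _ _ => Iff.rfl,
      ⟨h1.refl, h1.irrefl, h1.symm, h1.asymm, h1.trans, sec_of h1 h3⟩, h4⟩) with h | ⟨f, h1, h2, h3⟩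
  · exact Or.inl h
  · exact Or.inr ⟨f, h1, h2, h3, fun n F => isEmptyElim F⟩

theorem part3 (a b : ℕ → ℕ) (hb : ∀ j, b j ≤ 2)
    (hf : {j | b j = 2}.Finite)
    (c : ℕ → List ℕ → Str a → Str (cons3 b)) (d : ℕ → List ℕ → Str (cons3 b) → Str a)
    (hc : ∀ i, Definition (c i)) (hd : ∀ i, Definition (d i))
    (B : Set (Str a)) (hB : MeasurableSet B) (hi : ∀ x y, Iso x y → (x ∈ B ↔ y ∈ B))
    (h : ∀ x ∈ B, ∃ i p, CRelation (tern (c i p x)) ∧
      (∀ j, b j = 2 → MSODefinable (triples (tern (c i p x))) fun v => rest (c i p x) j v = true) ∧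
      d i p (c i p x) = x) :
    CountableOrPerfect B := by
  refine part1 a b hb c d hc hd B hB hi fun x hx => ?_
  obtain ⟨i, p, h1, h3, h4⟩ := h x hx
  obtain ⟨n', hn'⟩ := rows_of_mso (fun j v => rest (c i p x) j v = true) _ h1
    (hf.subset fun j (hj : 2 ≤ b j) => le_antisymm (hb j) hj)
    (fun j hj => h3 j (le_antisymm (hb j) hj))
  refine ⟨i, p, n', h1, fun y z hyz Y hY1 hY2 e he => ?_, h4⟩
  obtain ⟨i', j', h5, h6⟩ := hn' y z hyz Y hY1 hY2 e he
  exact ⟨i', j', h5, fun l t k hk ht => Bool.eq_iff_iff.2 (h6 l t k hk ht)⟩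

theorem part4 (L : FirstOrder.Language.{0, 0})
    (hL : Countable L.Symbols) (hR : L.IsRelational)
    (hf : {R : Σ n, L.Relations n | 2 ≤ R.1}.Finite) (T : L.Theory)
    (hT : ∀ S : L.Structure ℕ, @FirstOrder.Language.Theory.Model L ℕ S T →
        ∃ (m : ℕ) (p : Fin m → ℕ) (φ : L.Formula (Fin m ⊕ Fin 3)),
          CRelation (Rel S p φ) ∧
          (∀ R : L.Relations 2, MSODefinable (triples (Rel S p φ)) fun v =>
            @FirstOrder.Language.Structure.RelMap L ℕ S 2 R v) ∧
          HigherDefinable S p (Rel S p φ)) :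
    Dichotomy L T := by
  refine part2 L hL hR (hf.subset fun R (h : 3 ≤ R.1) => (show 2 ≤ R.1 by omega)) T
    fun S hS => ?_
  obtain ⟨m, p, φ, h1, h3, h4⟩ := hT S hS
  have hfin : {R : {R : Σ n, L.Relations n // R.1 ≤ 2} | 2 ≤ R.1.1}.Finite := by
    have h0 : (Subtype.val ⁻¹' {R : Σ n, L.Relations n | 2 ≤ R.1} :
        Set {R : Σ n, L.Relations n // R.1 ≤ 2}).Finite :=
      Set.Finite.preimage Subtype.val_injective.injOn hf
    exact h0
  obtain ⟨n', hn'⟩ := rows_of_mso (ι := {R : Σ n, L.Relations n // R.1 ≤ 2})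
    (ar := fun R => R.1.1)
    (fun R v => @FirstOrder.Language.Structure.RelMap L ℕ S R.1.1 R.1.2 v) _ h1 hfin
    (fun R hR => by
      obtain ⟨⟨j, R⟩, hj⟩ := R
      have h5 : j = 2 := le_antisymm hj hR
      subst h5
      exact h3 R)
  refine ⟨m, p, φ, n', h1, fun y z hyz Y hY1 hY2 e he => ?_, h4⟩
  obtain ⟨i', j', h5, h6⟩ := hn' y z hyz Y hY1 hY2 e he
  exact ⟨i', j', h5, fun j R hj t k hk ht => h6 ⟨⟨j, R⟩, hj⟩ t k hk ht⟩

theorem part5 (L : FirstOrder.Language.{0, 0})
    (hL : Countable L.Symbols) (hR : L.IsRelational)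
    (h2 : ∀ R : Σ n, L.Relations n, R.1 ≤ 2) (hf : Finite (L.Relations 2)) (T : L.Theory)
    (hT : ∀ S : L.Structure ℕ, @FirstOrder.Language.Theory.Model L ℕ S T →
        ∃ (m : ℕ) (p : Fin m → ℕ) (φ : L.Formula (Fin m ⊕ Fin 2)),
          TreeOrder (Rel2 S p φ) ∧
          ∀ R : L.Relations 2, MSODefinable (pairs (Rel2 S p φ)) fun v =>
            @FirstOrder.Language.Structure.RelMap L ℕ S 2 R v) :
    Dichotomy L T := by
  have hf' : {R : Σ n, L.Relations n | 2 ≤ R.1}.Finite := by
    refine (Set.finite_range fun R : L.Relations 2 => (⟨2, R⟩ : Σ n, L.Relations n)).subset ?_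
    rintro ⟨n, R⟩ hn
    have h3 : n = 2 := le_antisymm (h2 ⟨n, R⟩) hn
    subst h3
    exact ⟨R, rfl⟩
  refine part4 L hL hR hf' T fun S hS => ?_
  obtain ⟨m, p, φ, h1, h3⟩ := hT S hS
  have hO : Pool.Agent.N643.TD.Ord.TOrd (Rel2 S p φ) := ⟨h1.refl, h1.trans, h1.antisymm, h1.chain⟩
  have hC : Rel S p (Pool.Agent.N643.TD.Ord.crF φ) = Pool.Agent.N643.TD.Ord.cr (Rel2 S p φ) := by
    funext x y z
    exact propext (Pool.Agent.N643.TD.Ord.realize_crF S φ p x y z)
  refine ⟨m, p, Pool.Agent.N643.TD.Ord.crF φ, ?_, fun R => ?_, fun j R hj => ?_⟩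
  · rw [hC]
    exact ⟨Pool.Agent.N643.TD.Ord.cr_refl, Pool.Agent.N643.TD.Ord.cr_irr,
      Pool.Agent.N643.TD.Ord.cr_symm, Pool.Agent.N643.TD.Ord.cr_asymm hO,
      Pool.Agent.N643.TD.Ord.cr_trans⟩
  · obtain ⟨s, ψ, P, hψ⟩ := h3 R
    rw [hC]
    exact ⟨s + 1, toC ψ, _, fun v => (hψ v).trans (sat_toC hO ψ v P).symm⟩
  · have := h2 ⟨j, R⟩
    simp only at this
    omega

/-- **Vaught's conjecture for structures of bounded cut-rank over a tree.** -/
theorem result :
    (∀ (a b : ℕ → ℕ), (∀ j, b j ≤ 2) →
      ∀ (c : ℕ → List ℕ → Str a → Str (cons3 b)) (d : ℕ → List ℕ → Str (cons3 b) → Str a),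
      (∀ i, Definition (c i)) → (∀ i, Definition (d i)) →
      ∀ B : Set (Str a), MeasurableSet B → (∀ x y, Iso x y → (x ∈ B ↔ y ∈ B)) →
        (∀ x ∈ B, ∃ i p n, CRelation (tern (c i p x)) ∧
          BoundedRows n (tern (c i p x)) (SameRow (rest (c i p x))) ∧ d i p (c i p x) = x) →
        CountableOrPerfect B) ∧
    (∀ L : FirstOrder.Language.{0, 0}, Countable L.Symbols → L.IsRelational →
      {R : Σ n, L.Relations n | 3 ≤ R.1}.Finite → ∀ T : L.Theory,
      (∀ S : L.Structure ℕ, @FirstOrder.Language.Theory.Model L ℕ S T →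
        ∃ (m : ℕ) (p : Fin m → ℕ) (φ : L.Formula (Fin m ⊕ Fin 3)) (n : ℕ),
          CRelation (Rel S p φ) ∧
          BoundedRows n (Rel S p φ) (SameRowFO S) ∧ HigherDefinable S p (Rel S p φ)) →
      Dichotomy L T) ∧
    (∀ (a b : ℕ → ℕ), (∀ j, b j ≤ 2) → {j | b j = 2}.Finite →
      ∀ (c : ℕ → List ℕ → Str a → Str (cons3 b)) (d : ℕ → List ℕ → Str (cons3 b) → Str a),
      (∀ i, Definition (c i)) → (∀ i, Definition (d i)) →
      ∀ B : Set (Str a), MeasurableSet B → (∀ x y, Iso x y → (x ∈ B ↔ y ∈ B)) →
        (∀ x ∈ B, ∃ i p, CRelation (tern (c i p x)) ∧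
          (∀ j, b j = 2 → MSODefinable (triples (tern (c i p x))) fun v => rest (c i p x) j v = true) ∧
          d i p (c i p x) = x) →
        CountableOrPerfect B) ∧
    (∀ L : FirstOrder.Language.{0, 0}, Countable L.Symbols → L.IsRelational →
      {R : Σ n, L.Relations n | 2 ≤ R.1}.Finite → ∀ T : L.Theory,
      (∀ S : L.Structure ℕ, @FirstOrder.Language.Theory.Model L ℕ S T →
        ∃ (m : ℕ) (p : Fin m → ℕ) (φ : L.Formula (Fin m ⊕ Fin 3)),
          CRelation (Rel S p φ) ∧
          (∀ R : L.Relations 2, MSODefinable (triples (Rel S p φ)) fun v =>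
            @FirstOrder.Language.Structure.RelMap L ℕ S 2 R v) ∧
          HigherDefinable S p (Rel S p φ)) →
      Dichotomy L T) ∧
    (∀ L : FirstOrder.Language.{0, 0}, Countable L.Symbols → L.IsRelational →
      (∀ R : Σ n, L.Relations n, R.1 ≤ 2) → Finite (L.Relations 2) → ∀ T : L.Theory,
      (∀ S : L.Structure ℕ, @FirstOrder.Language.Theory.Model L ℕ S T →
        ∃ (m : ℕ) (p : Fin m → ℕ) (φ : L.Formula (Fin m ⊕ Fin 2)),
          TreeOrder (Rel2 S p φ) ∧
          ∀ R : L.Relations 2, MSODefinable (pairs (Rel2 S p φ)) fun v =>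
            @FirstOrder.Language.Structure.RelMap L ℕ S 2 R v) →
      Dichotomy L T) :=
  ⟨part1, part2, part3, part4, part5⟩

end Pool.Agent.Results.MP_5df2c5_lc.TreeCutRank
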